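import Pool.Agent.Lib.MP_ef3f0f_gt.G.Defs

set_option autoImplicit false

/-!
# MP_ef3f0f_gt, Part IV (arcs and pants in the plane): definitions

The arcs on the circle of directions are open double cones in `ℝ²`.
-/

namespace Pool.Agent.MPEF

open scoped Pointwise

abbrev SL2 : Type := Matrix.SpecialLinearGroup (Fin 2) ℝ

abbrev V2 : Type := Fin 2 → ℝ

/-- The determinant of two vectors. -/
def det2 (x y : V2) : ℝ := x 0 * y 1 - x 1 * y 0

/-- The trace. -/
def tr2 (g : SL2) : ℝ := g.1 0 0 + g.1 1 1

/-- Positive cyclic order of three directions. -/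
def cyc (x y z : V2) : Prop := 0 < det2 x y * det2 y z * det2 x z

/-- The half-open arc (cone) from `v` to `w` in the positive direction. -/
def HO (v w : V2) : Set V2 := {x | x ≠ 0 ∧ (det2 v x = 0 ∨ cyc v x w)}

/-- The open cone of the directions which `l` moves in the positive direction: the complement of
the closed arc from the attracting to the repelling fixed point. -/
def DD (l : SL2) : Set V2 := {v | 0 < tr2 l * det2 v (l • v)}

/-- The arcs of `SL₂(ℝ)` acting on the plane: `I l` is the open cone of the directions moved in the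
negative direction, i.e. the open arc from `l⁺` to `l⁻`. -/
def arcSL : Arc SL2 V2 where
  hyp := {l | 2 < |tr2 l|}
  I := fun l => {v | tr2 l * det2 v (l • v) < 0}
  N := {g | g.1 = 1 ∨ g.1 = -1}

/-- Diagonal matrices. -/
noncomputable def dgl (l : ℝ) (hl : l ≠ 0) : SL2 :=
  ⟨!![l, 0; 0, l⁻¹], by simp [Matrix.det_fin_two_of, hl]⟩

/-- The pants condition for `a`, `b` and a point `p`: the positive cyclic order
`p, abp, a⁺, a⁻, bp, b⁺, b⁻`, in algebraic form. -/
structure PH (a b : SL2) (p : V2) : Prop where
  ta : 2 < |tr2 a|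
  tb : 2 < |tr2 b|
  tc : 2 < |tr2 (a * b)|
  pa : 0 < tr2 a * det2 (b • p) (a • b • p)
  pb : 0 < tr2 b * det2 p (b • p)
  pc : 0 < tr2 (a * b) * det2 p (a • b • p)
  cy : cyc p (a • b • p) (b • p)

end Pool.Agent.MPEF
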