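import Pool.Agent.Lib.MP_ef3f0f_gt.A.Spec

set_option autoImplicit false

namespace Pool.Agent.MPEF

open scoped Pointwise

private theorem fd_smul0 (g : SL2) (v : V2) : (g • v) 0 = g.1 0 0 * v 0 + g.1 0 1 * v 1 := by
  show g.1.mulVec v 0 = _
  simp [Matrix.mulVec, dotProduct, Fin.sum_univ_two]

private theorem fd_smul1 (g : SL2) (v : V2) : (g • v) 1 = g.1 1 0 * v 0 + g.1 1 1 * v 1 := by
  show g.1.mulVec v 1 = _
  simp [Matrix.mulVec, dotProduct, Fin.sum_univ_two]

private theorem fd_dgl0 (l : ℝ) (hl : l ≠ 0) (v : V2) : (dgl l hl • v) 0 = l * v 0 := by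
  rw [fd_smul0]
  simp [dgl]

private theorem fd_dgl1 (l : ℝ) (hl : l ≠ 0) (v : V2) : (dgl l hl • v) 1 = l⁻¹ * v 1 := by
  rw [fd_smul1]
  simp [dgl]

private theorem fd_dgl_mul (l m : ℝ) (hl : l ≠ 0) (hm : m ≠ 0) :
    dgl (l * m) (mul_ne_zero hl hm) = dgl l hl * dgl m hm := by
  apply Subtype.ext
  ext i j
  rw [Matrix.SpecialLinearGroup.coe_mul]
  fin_cases i <;> fin_cases j <;> simp [dgl, Matrix.mul_apply, Fin.sum_univ_two, mul_comm]

private noncomputable def fdHom : ℝˣ →* SL2 where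
  toFun u := dgl u.1 u.ne_zero
  map_one' := by
    apply Subtype.ext
    ext i j
    fin_cases i <;> fin_cases j <;> simp [dgl]
  map_mul' u v := by
    show dgl ((u * v : ℝˣ) : ℝ) _ = _
    simp only [Units.val_mul]
    exact fd_dgl_mul u.1 v.1 u.ne_zero v.ne_zero

private theorem fd_congr (a b : ℝ) (ha : a ≠ 0) (hb : b ≠ 0) (h : a = b) : dgl a ha = dgl b hb := by
  subst h; rfl

private theorem fd_zpow (l : ℝ) (hl : l ≠ 0) (n : ℤ) :
    (dgl l hl) ^ n = dgl (l ^ n) (zpow_ne_zero n hl) := by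
  have h1 : dgl l hl = fdHom (Units.mk0 l hl) := rfl
  rw [h1, ← map_zpow]
  show dgl ((Units.mk0 l hl ^ n : ℝˣ) : ℝ) (Units.ne_zero _) = _
  apply fd_congr
  simp only [Units.val_zpow_eq_zpow_val, Units.val_mk0]

/-- the quotient coordinate -/
private noncomputable def fdR (q x : V2) : ℝ := (q 1 * x 0) / (q 0 * x 1)

private theorem fd_DD (l : ℝ) (hl : l ≠ 0) (h1 : 1 < |l|) (v : V2) :
    v ∈ DD (dgl l hl) ↔ v 0 * v 1 < 0 := by
  have hl2 : 1 < l ^ 2 := (one_lt_sq_iff_one_lt_abs l).2 h1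
  have hmem : v ∈ DD (dgl l hl) ↔ 0 < tr2 (dgl l hl) * det2 v (dgl l hl • v) := Iff.rfl
  rw [hmem]
  have htr : tr2 (dgl l hl) = l + l⁻¹ := by simp [tr2, dgl]
  have hdet : det2 v (dgl l hl • v) = (v 0 * v 1) * (l⁻¹ - l) := by
    unfold det2
    rw [fd_dgl0, fd_dgl1]
    ring
  rw [htr, hdet]
  have e : (l + l⁻¹) * ((v 0 * v 1) * (l⁻¹ - l)) = (-(v 0 * v 1)) * (l ^ 2 - (l ^ 2)⁻¹) := by
    field_simp
    ring
  rw [e]
  have hpos : 0 < l ^ 2 - (l ^ 2)⁻¹ := by
    have : (l ^ 2)⁻¹ < 1 := inv_lt_one_of_one_lt₀ hl2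
    linarith
  constructor
  · intro h
    have := (mul_pos_iff_of_pos_right hpos).1 h
    linarith
  · intro h
    apply mul_pos _ hpos
    linarith

private theorem fd_HO (l : ℝ) (hl : l ≠ 0) (h1 : 1 < |l|) (q : V2) (hq : q 0 * q 1 < 0) (x : V2) :
    x ∈ HO q (dgl l hl • q) ↔ x 0 * x 1 < 0 ∧ 1 ≤ fdR q x ∧ fdR q x < l ^ 2 := by
  have hl2 : 1 < l ^ 2 := (one_lt_sq_iff_one_lt_abs l).2 h1
  have hl2' : 0 < l ^ 2 := by linarith
  have hq0 : q 0 ≠ 0 := by
    intro h; rw [h] at hq; simp at hq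
  have hq1 : q 1 ≠ 0 := by
    intro h; rw [h] at hq; simp at hq
  have hmem : x ∈ HO q (dgl l hl • q) ↔ x ≠ 0 ∧ (det2 q x = 0 ∨
      0 < det2 q x * det2 x (dgl l hl • q) * det2 q (dgl l hl • q)) := Iff.rfl
  rw [hmem]
  -- the cyclic condition
  have ecyc : det2 q x * det2 x (dgl l hl • q) * det2 q (dgl l hl • q) =
      ((q 0 * x 1 - q 1 * x 0) * (l ^ 2 * (q 0 * x 1) - q 1 * x 0)) *
        ((q 0 * q 1) * ((l ^ 2 - 1) / l ^ 2)) := by
    unfold det2
    rw [fd_dgl0, fd_dgl1]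
    field_simp
    ring
  have hneg : (q 0 * q 1) * ((l ^ 2 - 1) / l ^ 2) < 0 := by
    apply mul_neg_of_neg_of_pos hq
    apply div_pos _ hl2'
    linarith
  have hcyc : 0 < det2 q x * det2 x (dgl l hl • q) * det2 q (dgl l hl • q) ↔
      (q 0 * x 1 - q 1 * x 0) * (l ^ 2 * (q 0 * x 1) - q 1 * x 0) < 0 := by
    rw [ecyc]
    constructor
    · intro h
      by_contra hcon
      rw [not_lt] at hcon
      have := mul_nonpos_of_nonneg_of_nonpos hcon hneg.le
      linarith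
    · intro h
      exact mul_pos_of_neg_of_neg h hneg
  rw [hcyc]
  have hdet : det2 q x = q 0 * x 1 - q 1 * x 0 := rfl
  rw [hdet]
  unfold fdR
  set a := q 0 * x 1 with ha
  set b := q 1 * x 0 with hb
  have hab : a * b = (q 0 * q 1) * (x 0 * x 1) := by rw [ha, hb]; ring
  constructor
  · rintro ⟨hx0, h⟩
    -- a ≠ 0 and a b > 0
    have ha0 : a ≠ 0 := by
      intro h0
      rw [h0] at h
      have hx1 : x 1 = 0 := by
        rcases mul_eq_zero.1 (ha.symm.trans h0) with h' | h'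
        · exact absurd h' hq0
        · exact h'
      rcases h with h | h
      · have hb0 : b = 0 := by linarith
        have hx00 : x 0 = 0 := by
          rcases mul_eq_zero.1 (hb.symm.trans hb0) with h' | h'
          · exact absurd h' hq1
          · exact h'
        apply hx0
        ext i
        fin_cases i
        · exact hx00
        · exact hx1
      · nlinarith [sq_nonneg b]
    have hdiv : ∀ c : ℝ, b / a = c ↔ b = c * a := fun c => div_eq_iff ha0
    have hr : 1 ≤ b / a ∧ b / a < l ^ 2 := by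
      rcases h with h | h
      · have : b = a := by linarith
        rw [this, div_self ha0]
        exact ⟨le_refl _, hl2⟩
      · have hb' : b = (b / a) * a := (div_mul_cancel₀ b ha0).symm
        set r := b / a with hr
        have h2 : (1 - r) * (l ^ 2 - r) * a ^ 2 < 0 := by
          have : (a - b) * (l ^ 2 * a - b) = (1 - r) * (l ^ 2 - r) * a ^ 2 := by
            rw [hb']; ring
          rwa [← this]
        have ha2 : 0 < a ^ 2 := by positivity
        have h3 : (1 - r) * (l ^ 2 - r) < 0 := by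
          by_contra hcon
          rw [not_lt] at hcon
          have := mul_nonneg hcon ha2.le
          linarith
        constructor
        · by_contra hcon
          rw [not_le] at hcon
          have := mul_pos (by linarith : 0 < 1 - r) (by linarith : 0 < l ^ 2 - r)
          linarith
        · by_contra hcon
          rw [not_lt] at hcon
          have := mul_nonneg_of_nonpos_of_nonpos (by linarith : 1 - r ≤ 0) (by linarith : l ^ 2 - r ≤ 0)
          linarith
    refine ⟨?_, hr⟩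
    have hrab : 0 < a * b := by
      have hb' : b = (b / a) * a := (div_mul_cancel₀ b ha0).symm
      have ha2 : 0 < a ^ 2 := by positivity
      rw [hb']
      have : a * (b / a * a) = (b / a) * a ^ 2 := by ring
      rw [this]
      exact mul_pos (by linarith [hr.1]) ha2
    rw [hab] at hrab
    by_contra hcon
    rw [not_lt] at hcon
    have := mul_nonpos_of_nonpos_of_nonneg hq.le hcon
    linarith
  · rintro ⟨hx, h1', h2'⟩
    have hab' : 0 < a * b := by
      rw [hab]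
      exact mul_pos_of_neg_of_neg hq hx
    have ha0 : a ≠ 0 := by
      intro h; rw [h] at hab'; simp at hab'
    refine ⟨?_, ?_⟩
    · intro h0
      rw [h0] at hx
      simp at hx
    · have hb' : b = (b / a) * a := (div_mul_cancel₀ b ha0).symm
      set r := b / a with hr
      rcases h1'.eq_or_lt with h | h
      · left
        rw [hb', ← h]
        ring
      · right
        have : (a - b) * (l ^ 2 * a - b) = (1 - r) * (l ^ 2 - r) * a ^ 2 := by
          rw [hb']; ring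
        rw [this]
        have ha2 : 0 < a ^ 2 := by positivity
        apply mul_neg_of_neg_of_pos _ ha2
        exact mul_neg_of_neg_of_pos (by linarith) (by linarith)

private theorem fd_R_dgl (m : ℝ) (hm : m ≠ 0) (q x : V2) :
    fdR q (dgl m hm • x) = m ^ 2 * fdR q x := by
  unfold fdR
  rw [fd_dgl0, fd_dgl1]
  by_cases hx : q 0 * x 1 = 0
  · have : q 0 * (m⁻¹ * x 1) = 0 := by
      calc q 0 * (m⁻¹ * x 1) = m⁻¹ * (q 0 * x 1) := by ring
        _ = 0 := by rw [hx, mul_zero]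
    rw [hx, this, div_zero, div_zero, mul_zero]
  · have hq0 : q 0 ≠ 0 := left_ne_zero_of_mul hx
    have hx1 : x 1 ≠ 0 := right_ne_zero_of_mul hx
    field_simp

private theorem fd_prod_dgl (m : ℝ) (hm : m ≠ 0) (x : V2) :
    (dgl m hm • x) 0 * (dgl m hm • x) 1 = x 0 * x 1 := by
  rw [fd_dgl0, fd_dgl1]
  field_simp

/-- the statement for diagonal matrices -/
private theorem fd_diag (l : ℝ) (hl : l ≠ 0) (h1 : 1 < |l|) (q : V2) (hq : q ∈ DD (dgl l hl)) :
    HO q (dgl l hl • q) ⊆ DD (dgl l hl) ∧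
    (∀ n : ℤ, n ≠ 0 → Disjoint ((dgl l hl) ^ n • HO q (dgl l hl • q)) (HO q (dgl l hl • q))) ∧
    (∀ n : ℤ, (dgl l hl) ^ n • DD (dgl l hl) = DD (dgl l hl)) ∧
    (∀ x ∈ DD (dgl l hl), ∃ n : ℤ, x ∈ (dgl l hl) ^ n • HO q (dgl l hl • q)) := by
  have hl2 : 1 < l ^ 2 := (one_lt_sq_iff_one_lt_abs l).2 h1
  have hl2' : 0 < l ^ 2 := by linarith
  rw [fd_DD l hl h1] at hq
  have hmemn : ∀ (n : ℤ) (x : V2), x ∈ (dgl l hl) ^ n • HO q (dgl l hl • q) ↔
      x 0 * x 1 < 0 ∧ (l ^ 2) ^ n ≤ fdR q x ∧ fdR q x < (l ^ 2) ^ (n + 1) := by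
    intro n x
    rw [Set.mem_smul_set_iff_inv_smul_mem, ← zpow_neg, fd_zpow, fd_HO l hl h1 q hq, fd_prod_dgl,
      fd_R_dgl]
    have e1 : (l ^ (-n)) ^ 2 = ((l ^ 2) ^ n)⁻¹ := by
      rw [zpow_neg, inv_pow]
      congr 1
      rw [← zpow_natCast, ← zpow_natCast, ← zpow_mul, ← zpow_mul, mul_comm]
    have hpos : 0 < (l ^ 2) ^ n := zpow_pos hl2' n
    rw [e1, zpow_add₀ hl2'.ne', zpow_one]
    constructor
    · rintro ⟨h2, h3, h4⟩
      refine ⟨h2, ?_, ?_⟩
      · rw [← div_eq_inv_mul, le_div_iff₀ hpos, one_mul] at h3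
        exact h3
      · rw [← div_eq_inv_mul, div_lt_iff₀ hpos] at h4
        linarith
    · rintro ⟨h2, h3, h4⟩
      refine ⟨h2, ?_, ?_⟩
      · rw [← div_eq_inv_mul, le_div_iff₀ hpos, one_mul]
        exact h3
      · rw [← div_eq_inv_mul, div_lt_iff₀ hpos]
        linarith
  have hmem0 : ∀ x : V2, x ∈ HO q (dgl l hl • q) ↔
      x 0 * x 1 < 0 ∧ 1 ≤ fdR q x ∧ fdR q x < l ^ 2 := fd_HO l hl h1 q hq
  refine ⟨?_, ?_, ?_, ?_⟩
  · intro x hx
    rw [hmem0] at hx
    rw [fd_DD l hl h1]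
    exact hx.1
  · intro n hn
    rw [Set.disjoint_left]
    intro x hx hx0
    rw [hmemn] at hx
    rw [hmem0] at hx0
    rcases lt_or_gt_of_ne hn with h | h
    · have h3 : (l ^ 2) ^ (n + 1) ≤ 1 := zpow_le_one_of_nonpos₀ hl2.le (by omega)
      linarith [hx.2.2, hx0.2.1]
    · have h3 : (l ^ 2) ^ (1 : ℤ) ≤ (l ^ 2) ^ n := zpow_le_zpow_right₀ hl2.le (by omega)
      rw [zpow_one] at h3
      linarith [hx.2.1, hx0.2.2]
  · intro n
    ext x
    rw [Set.mem_smul_set_iff_inv_smul_mem, ← zpow_neg, fd_zpow, fd_DD l hl h1, fd_DD l hl h1,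
      fd_prod_dgl]
  · intro x hx
    rw [fd_DD l hl h1] at hx
    have hR : 0 < fdR q x := by
      unfold fdR
      have h2 : 0 < (q 1 * x 0) * (q 0 * x 1) := by
        have : (q 1 * x 0) * (q 0 * x 1) = (q 0 * q 1) * (x 0 * x 1) := by ring
        rw [this]
        exact mul_pos_of_neg_of_neg hq hx
      rw [div_pos_iff]
      exact pos_and_pos_or_neg_and_neg_of_mul_pos h2
    obtain ⟨n, hn1, hn2⟩ := exists_mem_Ico_zpow hR hl2
    exact ⟨n, (hmemn n x).2 ⟨hx, hn1, hn2⟩⟩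

theorem tFD : S_diag → S_cyc → S_FD := by
  intro hdiag hcyc a q ha hq
  obtain ⟨l, hl, h, h1, rfl⟩ := hdiag a ha
  set D := dgl l hl with hD
  obtain ⟨hdet, hHO, _⟩ := hcyc
  have htr : tr2 (h * D * h⁻¹) = tr2 D := by
    have e1 : ∀ g : SL2, tr2 g = g.1.trace := by
      intro g
      rw [Matrix.trace_fin_two]
      rfl
    rw [e1, e1]
    have e2 : (h * D * h⁻¹).1 = h.1 * D.1 * (h⁻¹).1 := by
      rw [Matrix.SpecialLinearGroup.coe_mul, Matrix.SpecialLinearGroup.coe_mul]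
    have e3 : (h⁻¹).1 * h.1 = 1 := by
      rw [← Matrix.SpecialLinearGroup.coe_mul, inv_mul_cancel, Matrix.SpecialLinearGroup.coe_one]
    rw [e2, Matrix.trace_mul_comm, ← Matrix.mul_assoc, e3, one_mul]
  have hDD : DD (h * D * h⁻¹) = h • DD D := by
    ext x
    rw [Set.mem_smul_set_iff_inv_smul_mem]
    have m1 : x ∈ DD (h * D * h⁻¹) ↔ 0 < tr2 (h * D * h⁻¹) * det2 x ((h * D * h⁻¹) • x) := Iff.rfl
    have m2 : h⁻¹ • x ∈ DD D ↔ 0 < tr2 D * det2 (h⁻¹ • x) (D • (h⁻¹ • x)) := Iff.rfl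
    rw [m1, m2, htr]
    have e : det2 x ((h * D * h⁻¹) • x) = det2 (h⁻¹ • x) (D • (h⁻¹ • x)) := by
      rw [← hdet h (h⁻¹ • x) (D • (h⁻¹ • x)), smul_inv_smul, smul_smul, smul_smul]
    rw [e]
  set q' := h⁻¹ • q with hq'
  have hqq : q = h • q' := by rw [hq', smul_inv_smul]
  have hq'D : q' ∈ DD D := by
    rw [hDD, Set.mem_smul_set_iff_inv_smul_mem] at hq
    exact hq
  have hHOq : HO q ((h * D * h⁻¹) • q) = h • HO q' (D • q') := by
    rw [hHO h q' (D • q'), ← hqq]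
    congr 1
    rw [hq', smul_smul, smul_smul]
  have hpow : ∀ (n : ℤ) (S : Set V2), (h * D * h⁻¹) ^ n • (h • S) = h • (D ^ n • S) := by
    intro n S
    rw [conj_zpow, smul_smul, smul_smul]
    congr 1
    group
  obtain ⟨f1, f2, f3, f4⟩ := fd_diag l hl h1 q' hq'D
  rw [← hD] at f1 f2 f3 f4
  rw [hHOq, hDD]
  refine ⟨Set.smul_set_mono f1, ?_, ?_, ?_⟩
  · intro n hn
    rw [hpow]
    rw [Set.disjoint_left]
    intro x hx hx'
    rw [Set.mem_smul_set_iff_inv_smul_mem] at hx hx'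
    exact Set.disjoint_left.1 (f2 n hn) hx hx'
  · intro n
    rw [hpow, f3]
  · intro x hx
    rw [Set.mem_smul_set_iff_inv_smul_mem] at hx
    obtain ⟨n, hn⟩ := f4 _ hx
    refine ⟨n, ?_⟩
    rw [hpow, Set.mem_smul_set_iff_inv_smul_mem]
    exact hn

end Pool.Agent.MPEF
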