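import Pool.Agent.Lib.MP_ef3f0f_gt.A.Spec
import Pool.Agent.Lib.MP_ef3f0f_gt.G.Spec

set_option autoImplicit false

/-!
# MP_ef3f0f_gt, Part IV: the pants lemma
-/

namespace Pool.Agent.MPEF

open scoped Pointwise

/-! ### 1. Ping-pong, abstractly -/

/-- Ping-pong data for a group generated by `x`, `y`. -/
private structure PantsPP {Q P X : Type} [Group Q] [Group P] [MulAction P X] (φ : Q →* P)
    (x y : Q) (Xa Xb D Ta Tb Ia Ib : Set X) : Prop where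
  gen : ∀ g : Q, g = 1 ∨
    ∃ s e, AW (Subgroup.zpowers x) (Subgroup.zpowers y) ⊥ s e g
  hx : ∀ n : ℤ, n ≠ 0 → ∀ w, w ∈ D ∨ w ∈ Xb → φ (x ^ n) • w ∈ Ta
  hy : ∀ n : ℤ, n ≠ 0 → ∀ w, w ∈ D ∨ w ∈ Xa → φ (y ^ n) • w ∈ Tb
  ta : Ta ⊆ Xa
  tb : Tb ⊆ Xb
  ia : Ia ⊆ Xa
  ib : Ib ⊆ Xb
  fa : ∀ n : ℤ, ∀ w ∈ Ia, φ (x ^ n) • w ∈ Ia
  fb : ∀ n : ℤ, ∀ w ∈ Ib, φ (y ^ n) • w ∈ Ib
  da : ∀ w ∈ Ta, w ∉ Ia
  db : ∀ w ∈ Tb, w ∉ Ib
  ab : ∀ w ∈ Xa, w ∉ Xb
  ad : ∀ w ∈ Xa, w ∉ D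
  bd : ∀ w ∈ Xb, w ∉ D

section

variable {Q P X : Type} [Group Q] [Group P] [MulAction P X] {φ : Q →* P} {x y : Q}
  {Xa Xb D Ta Tb Ia Ib : Set X}

private theorem pants_letx (H : PantsPP φ x y Xa Xb D Ta Tb Ia Ib) {g : Q}
    (hg : g ∈ Subgroup.zpowers x) (h1 : g ∉ (⊥ : Subgroup Q)) {w : X} (hw : w ∈ D ∨ w ∈ Xb) :
    φ g • w ∈ Ta := by
  obtain ⟨n, rfl⟩ := Subgroup.mem_zpowers_iff.mp hg
  refine H.hx n ?_ w hw
  rintro rfl
  exact h1 (by rw [zpow_zero]; exact Subgroup.mem_bot.mpr rfl)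

private theorem pants_lety (H : PantsPP φ x y Xa Xb D Ta Tb Ia Ib) {g : Q}
    (hg : g ∈ Subgroup.zpowers y) (h1 : g ∉ (⊥ : Subgroup Q)) {w : X} (hw : w ∈ D ∨ w ∈ Xa) :
    φ g • w ∈ Tb := by
  obtain ⟨n, rfl⟩ := Subgroup.mem_zpowers_iff.mp hg
  refine H.hy n ?_ w hw
  rintro rfl
  exact h1 (by rw [zpow_zero]; exact Subgroup.mem_bot.mpr rfl)

private theorem pants_fixx (H : PantsPP φ x y Xa Xb D Ta Tb Ia Ib) {g : Q}
    (hg : g ∈ Subgroup.zpowers x) {w : X} (hw : w ∈ Ia) : φ g • w ∈ Ia := by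
  obtain ⟨n, rfl⟩ := Subgroup.mem_zpowers_iff.mp hg
  exact H.fa n w hw

private theorem pants_fixy (H : PantsPP φ x y Xa Xb D Ta Tb Ia Ib) {g : Q}
    (hg : g ∈ Subgroup.zpowers y) {w : X} (hw : w ∈ Ib) : φ g • w ∈ Ib := by
  obtain ⟨n, rfl⟩ := Subgroup.mem_zpowers_iff.mp hg
  exact H.fb n w hw

/-- The sets in which the images lie. -/
private def pantsT (Ta Tb : Set X) (s : Bool) : Set X := if s then Tb else Ta

private theorem pants_aw (H : PantsPP φ x y Xa Xb D Ta Tb Ia Ib) {s e : Bool} {g : Q}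
    (h : AW (Subgroup.zpowers x) (Subgroup.zpowers y) ⊥ s e g) :
    ∀ w ∈ D, φ g • w ∈ pantsT Ta Tb s := by
  induction h with
  | one₁ z h1 h2 => exact fun w hw => pants_letx H h1 h2 (Or.inl hw)
  | one₂ z h1 h2 => exact fun w hw => pants_lety H h1 h2 (Or.inl hw)
  | cons₁ z g e h1 h2 h3 ih =>
    intro w hw
    rw [map_mul, mul_smul]
    exact pants_letx H h1 h2 (Or.inr (H.tb (ih w hw)))
  | cons₂ z g e h1 h2 h3 ih =>
    intro w hw
    rw [map_mul, mul_smul]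
    exact pants_lety H h1 h2 (Or.inr (H.ta (ih w hw)))

private theorem pants_awa (H : PantsPP φ x y Xa Xb D Ta Tb Ia Ib) {s e : Bool} {g : Q}
    (h : AW (Subgroup.zpowers x) (Subgroup.zpowers y) ⊥ s e g) :
    g ∈ Subgroup.zpowers x ∨ ∀ w ∈ Ia, φ g • w ∈ pantsT Ta Tb s := by
  induction h with
  | one₁ z h1 h2 => exact Or.inl h1
  | one₂ z h1 h2 => exact Or.inr fun w hw => pants_lety H h1 h2 (Or.inr (H.ia hw))
  | cons₁ z g e h1 h2 h3 ih =>
    rcases ih with ih | ih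
    · exact Or.inl (mul_mem h1 ih)
    · refine Or.inr fun w hw => ?_
      rw [map_mul, mul_smul]
      exact pants_letx H h1 h2 (Or.inr (H.tb (ih w hw)))
  | cons₂ z g e h1 h2 h3 ih =>
    refine Or.inr fun w hw => ?_
    rw [map_mul, mul_smul]
    rcases ih with ih | ih
    · exact pants_lety H h1 h2 (Or.inr (H.ia (pants_fixx H ih hw)))
    · exact pants_lety H h1 h2 (Or.inr (H.ta (ih w hw)))

private theorem pants_awb (H : PantsPP φ x y Xa Xb D Ta Tb Ia Ib) {s e : Bool} {g : Q}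
    (h : AW (Subgroup.zpowers x) (Subgroup.zpowers y) ⊥ s e g) :
    g ∈ Subgroup.zpowers y ∨ ∀ w ∈ Ib, φ g • w ∈ pantsT Ta Tb s := by
  induction h with
  | one₂ z h1 h2 => exact Or.inl h1
  | one₁ z h1 h2 => exact Or.inr fun w hw => pants_letx H h1 h2 (Or.inr (H.ib hw))
  | cons₂ z g e h1 h2 h3 ih =>
    rcases ih with ih | ih
    · exact Or.inl (mul_mem h1 ih)
    · refine Or.inr fun w hw => ?_
      rw [map_mul, mul_smul]
      exact pants_lety H h1 h2 (Or.inr (H.ta (ih w hw)))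
  | cons₁ z g e h1 h2 h3 ih =>
    refine Or.inr fun w hw => ?_
    rw [map_mul, mul_smul]
    rcases ih with ih | ih
    · exact pants_letx H h1 h2 (Or.inr (H.ib (pants_fixy H ih hw)))
    · exact pants_letx H h1 h2 (Or.inr (H.tb (ih w hw)))

/-- Points outside of `D`, `Ia`, `Ib`. -/
private theorem pants_T (H : PantsPP φ x y Xa Xb D Ta Tb Ia Ib) {s : Bool} {w : X}
    (hw : w ∈ pantsT Ta Tb s) : w ∉ D ∧ w ∉ Ia ∧ w ∉ Ib := by
  cases s with
  | false =>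
    have h1 : w ∈ Ta := hw
    exact ⟨H.ad w (H.ta h1), H.da w h1, fun h => H.ab w (H.ta h1) (H.ib h)⟩
  | true =>
    have h1 : w ∈ Tb := hw
    exact ⟨H.bd w (H.tb h1), fun h => H.ab w (H.ia h) (H.tb h1), H.db w h1⟩

private theorem pants_F3 (H : PantsPP φ x y Xa Xb D Ta Tb Ia Ib) {g : Q} {w : X} (hw : w ∈ D) :
    g = 1 ∨ (φ g • w ∉ D ∧ φ g • w ∉ Ia ∧ φ g • w ∉ Ib) := by
  rcases H.gen g with h | ⟨s, e, h⟩
  · exact Or.inl h
  · exact Or.inr (pants_T H (pants_aw H h w hw))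

private theorem pants_F1 (H : PantsPP φ x y Xa Xb D Ta Tb Ia Ib) {g : Q}
    (hg : g ∉ Subgroup.zpowers x) {w : X} (hw : w ∈ Ia) : φ g • w ∉ Ia ∧ φ g • w ∉ Ib := by
  rcases H.gen g with h | ⟨s, e, h⟩
  · exact absurd (h ▸ one_mem _) hg
  · rcases pants_awa H h with h1 | h1
    · exact absurd h1 hg
    · exact (pants_T H (h1 w hw)).2

private theorem pants_F2 (H : PantsPP φ x y Xa Xb D Ta Tb Ia Ib) {g : Q}
    (hg : g ∉ Subgroup.zpowers y) {w : X} (hw : w ∈ Ib) : φ g • w ∉ Ia ∧ φ g • w ∉ Ib := by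
  rcases H.gen g with h | ⟨s, e, h⟩
  · exact absurd (h ▸ one_mem _) hg
  · rcases pants_awb H h with h1 | h1
    · exact absurd h1 hg
    · exact (pants_T H (h1 w hw)).2

/-- The arc of the third boundary. -/
private def pantsC (φ : Q →* P) (z : Q) (D : Set X) : Set X :=
  {w | ∃ m : ℤ, ∃ u ∈ D, w = φ (z ^ m) • u}

private theorem pants_dis (H : PantsPP φ x y Xa Xb D Ta Tb Ia Ib) (g : Q) (w : X) :
    (w ∈ Ia → φ g • w ∈ Ia → g ∈ Subgroup.zpowers x) ∧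
    (w ∈ Ib → φ g • w ∈ Ib → g ∈ Subgroup.zpowers y) ∧
    (w ∈ pantsC φ (x * y) D → φ g • w ∈ pantsC φ (x * y) D → g ∈ Subgroup.zpowers (x * y)) ∧
    (w ∈ Ia → φ g • w ∉ Ib) ∧ (w ∈ Ib → φ g • w ∉ Ia) ∧
    (w ∈ Ia → φ g • w ∉ pantsC φ (x * y) D) ∧ (w ∈ Ib → φ g • w ∉ pantsC φ (x * y) D) ∧
    (w ∈ pantsC φ (x * y) D → φ g • w ∉ Ia) ∧ (w ∈ pantsC φ (x * y) D → φ g • w ∉ Ib) := by
  have hback : ∀ u : X, φ g⁻¹ • φ g • u = u := by
    intro u
    rw [smul_smul, ← map_mul, inv_mul_cancel, map_one, one_smul]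
  have hC : ∀ u ∈ pantsC φ (x * y) D, ∀ k : Q, φ k • u ∉ Ia ∧ φ k • u ∉ Ib := by
    rintro u ⟨m, u', hu', rfl⟩ k
    rw [smul_smul, ← map_mul]
    rcases pants_F3 H (g := k * (x * y) ^ m) hu' with h | h
    · rw [h, map_one, one_smul]
      exact ⟨fun h1 => H.ad _ (H.ia h1) hu', fun h1 => H.bd _ (H.ib h1) hu'⟩
    · exact h.2
  refine ⟨fun h1 h2 => ?_, fun h1 h2 => ?_, ?_, fun h1 h2 => ?_, fun h1 h2 => ?_,
    fun h1 h2 => ?_, fun h1 h2 => ?_, fun h1 => (hC w h1 g).1, fun h1 => (hC w h1 g).2⟩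
  · by_contra hg
    exact (pants_F1 H hg h1).1 h2
  · by_contra hg
    exact (pants_F2 H hg h1).2 h2
  · rintro ⟨m, u, hu, rfl⟩ ⟨n, u', hu', h2⟩
    have h3 : φ ((x * y) ^ (-n) * (g * (x * y) ^ m)) • u = u' := by
      rw [map_mul, map_mul, mul_smul, mul_smul, h2, smul_smul, ← map_mul, ← zpow_add,
        neg_add_cancel, zpow_zero, map_one, one_smul]
    rcases pants_F3 H (g := (x * y) ^ (-n) * (g * (x * y) ^ m)) hu with h | h
    · refine Subgroup.mem_zpowers_iff.mpr ⟨n - m, ?_⟩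
      have h4 : g * (x * y) ^ m = (x * y) ^ n := by
        rw [zpow_neg] at h
        exact (inv_mul_eq_one.mp h).symm
      rw [zpow_sub, ← h4, mul_inv_cancel_right]
    · rw [h3] at h
      exact absurd hu' h.1
  · by_cases hg : g ∈ Subgroup.zpowers x
    · exact H.ab _ (H.ia (pants_fixx H hg h1)) (H.ib h2)
    · exact (pants_F1 H hg h1).2 h2
  · by_cases hg : g ∈ Subgroup.zpowers y
    · exact H.ab _ (H.ia h2) (H.ib (pants_fixy H hg h1))
    · exact (pants_F2 H hg h1).1 h2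
  · have h3 := (hC _ h2 g⁻¹).1
    rw [hback] at h3
    exact h3 h1
  · have h3 := (hC _ h2 g⁻¹).2
    rw [hback] at h3
    exact h3 h1

private theorem pants_cos (H : PantsPP φ x y Xa Xb D Ta Tb Ia Ib) (hD : D.Nonempty) (k : ℤ)
    (hk : k ≠ 0) : y ^ k ∉ Subgroup.zpowers x ∧ x ^ k ∉ Subgroup.zpowers y ∧
      x ^ k ∉ Subgroup.zpowers (x * y) := by
  obtain ⟨u, hu⟩ := hD
  refine ⟨fun h => ?_, fun h => ?_, fun h => ?_⟩
  · have h1 := H.tb (H.hy k hk u (Or.inl hu))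
    obtain ⟨n, hn⟩ := Subgroup.mem_zpowers_iff.mp h
    by_cases h0 : n = 0
    · rw [← hn, h0, zpow_zero, map_one, one_smul] at h1
      exact H.bd u h1 hu
    · have h2 := H.ta (H.hx n h0 u (Or.inl hu))
      rw [hn] at h2
      exact H.ab _ h2 h1
  · have h1 := H.ta (H.hx k hk u (Or.inl hu))
    obtain ⟨n, hn⟩ := Subgroup.mem_zpowers_iff.mp h
    by_cases h0 : n = 0
    · rw [← hn, h0, zpow_zero, map_one, one_smul] at h1
      exact H.ad u h1 hu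
    · have h2 := H.tb (H.hy n h0 u (Or.inl hu))
      rw [hn] at h2
      exact H.ab _ h1 h2
  · obtain ⟨n, hn⟩ := Subgroup.mem_zpowers_iff.mp h
    have h1 : Commute (x ^ k) (x * y) := hn ▸ (Commute.refl (x * y)).zpow_left n
    have h2 : x ^ k * y = y * x ^ k := by
      have h3 : x ^ k * (x * y) = x * y * x ^ k := h1
      have h4 : x * (x ^ k * y) = x * (y * x ^ k) := by
        rw [← mul_assoc, ← mul_assoc, ← h3, ← mul_assoc]
        congr 1
        rw [← zpow_one_add, ← zpow_add_one, add_comm]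
      exact mul_left_cancel h4
    have h5 := H.tb (H.hy 1 one_ne_zero u (Or.inl hu))
    have h6 := H.ta (H.hx k hk _ (Or.inr h5))
    have h7 := H.ta (H.hx k hk u (Or.inl hu))
    have h8 := H.tb (H.hy 1 one_ne_zero _ (Or.inr h7))
    rw [zpow_one, smul_smul, ← map_mul] at h6 h8
    rw [h2] at h6
    exact H.ab _ h6 h8

end

/-! ### 2. The arcs in the plane -/

private theorem pants_trinv (g : SL2) : tr2 g⁻¹ = tr2 g := by
  unfold tr2
  rw [Matrix.SpecialLinearGroup.SL2_inv_expl]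
  simp
  ring

private theorem pants_det_self (x : V2) : det2 x x = 0 := by
  unfold det2
  ring

private theorem pants_det_swap (x y : V2) : det2 x y = - det2 y x := by
  unfold det2
  ring

private theorem pants_det_neg (x y : V2) : det2 (-x) y = - det2 x y ∧ det2 x (-y) = - det2 x y := by
  unfold det2
  constructor <;> simp <;> ring

private theorem pants_HO_ne {v w x : V2} (h : x ∈ HO v w) : x ≠ 0 := h.1

private theorem pants_HO_neg {v w x : V2} (h : x ∈ HO v w) : -x ∈ HO v w := by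
  refine ⟨neg_ne_zero.mpr h.1, ?_⟩
  rcases h.2 with h1 | h1
  · left
    rw [(pants_det_neg v x).2, h1, neg_zero]
  · right
    unfold cyc at h1 ⊢
    rw [(pants_det_neg v x).2, (pants_det_neg x w).1]
    linarith

private theorem pants_smul_ne {g : SL2} {x : V2} (h : x ≠ 0) : g • x ≠ 0 := by
  intro h1
  apply h
  have h2 : g⁻¹ • g • x = g⁻¹ • (0 : V2) := by rw [h1]
  rwa [smul_smul, inv_mul_cancel, one_smul, smul_zero] at h2

/-- The statement on one generator. -/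
private theorem pants_one (hFD : S_FD) {a : SL2} (ha : 2 < |tr2 a|) {q r : V2} (hr : a • q = r)
    (hq : q ∈ DD a) {A B C : Set V2} (hU : A ∪ B ∪ C = {x | x ≠ 0}) (hJ : HO q r = A ∪ B)
    (n : ℤ) (hn : n ≠ 0) (w : V2) (hw : w ∈ A ∨ w ∈ B) : a ^ n • w ∈ C ∩ DD a := by
  obtain ⟨h1, h2, h3, -⟩ := hFD a q ha hq
  rw [hr] at h1 h2
  have hwJ : w ∈ HO q r := by
    rw [hJ]
    exact hw
  have h4 : a ^ n • w ∈ a ^ n • HO q r := Set.smul_mem_smul_set hwJ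
  have h5 : a ^ n • w ∉ HO q r := Set.disjoint_left.mp (h2 n hn) h4
  have h6 : a ^ n • w ∈ A ∪ B ∪ C := by
    rw [hU]
    exact pants_smul_ne (pants_HO_ne hwJ)
  rw [hJ] at h5
  refine ⟨h6.resolve_left h5, ?_⟩
  rw [← h3 n]
  exact Set.smul_mem_smul_set (h1 hwJ)

private theorem pants_Ifix (hcyc : S_cyc) (a : SL2) (n : ℤ) (w : V2) (hw : w ∈ arcSL.I a) :
    a ^ n • w ∈ arcSL.I a := by
  have h1 : tr2 a * det2 w (a • w) < 0 := hw
  show tr2 a * det2 (a ^ n • w) (a • a ^ n • w) < 0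
  have h2 : a • a ^ n • w = a ^ n • a • w := by
    rw [smul_smul, smul_smul, ((Commute.refl a).zpow_right n).eq]
  rw [h2, hcyc.1]
  exact h1

private theorem pants_IDD (a : SL2) (w : V2) (h1 : w ∈ arcSL.I a) (h2 : w ∈ DD a) : False := by
  have h3 : tr2 a * det2 w (a • w) < 0 := h1
  have h4 : 0 < tr2 a * det2 w (a • w) := h2
  linarith

private theorem pants_Isub (hFD : S_FD) {a : SL2} (ha : 2 < |tr2 a|) {q r : V2} (hr : a • q = r)
    (hq : q ∈ DD a) {A B C : Set V2} (hU : A ∪ B ∪ C = {x | x ≠ 0}) (hJ : HO q r = A ∪ B) :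
    arcSL.I a ⊆ C := by
  intro w hw
  have h0 : w ≠ 0 := by
    rintro rfl
    have h3 : tr2 a * det2 0 (a • (0 : V2)) < 0 := hw
    simp [det2] at h3
  have h1 : w ∈ A ∪ B ∪ C := by
    rw [hU]
    exact h0
  refine h1.resolve_left fun h2 => ?_
  rw [← hJ, ← hr] at h2
  exact pants_IDD a w hw ((hFD a q ha hq).1 h2)

private theorem pants_Ic (hcyc : S_cyc) (hFD : S_FD) {g : SL2} (hg : 2 < |tr2 g|) {v r : V2}
    (hr : g • v = r) (hv : v ∈ DD g) (w : V2) (hw : w ∈ arcSL.I g⁻¹) :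
    ∃ m : ℤ, ∃ u ∈ HO v r, w = g ^ m • u := by
  have h1 : tr2 g⁻¹ * det2 w (g⁻¹ • w) < 0 := hw
  have h2 : w ∈ DD g := by
    show 0 < tr2 g * det2 w (g • w)
    have h3 : det2 w (g⁻¹ • w) = - det2 w (g • w) := by
      rw [← hcyc.1 g w (g⁻¹ • w), smul_smul, mul_inv_cancel, one_smul, pants_det_swap]
    rw [pants_trinv, h3] at h1
    linarith
  obtain ⟨n, hn⟩ := (hFD g v hg hv).2.2.2 w h2
  rw [hr] at hn
  obtain ⟨u, hu, rfl⟩ := hn
  exact ⟨n, u, hu, rfl⟩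

/-! ### 3. The theorem -/

theorem tPants : S_sf → S_AW → S_cyc → S_FD → S_Pants := by
  intro hsf hAW hcyc hFD Γ _ p α β v hP
  obtain ⟨hlift, hrel, hgen, -⟩ := hsf 0 3
  obtain ⟨ρ, -, hρ⟩ := hlift Γ (fun i => i.1.elim0) ![α, β, (α * β)⁻¹] (by
    unfold sfVal
    simp [List.ofFn_succ])
  have hρ0 : ρ (sfS 0) = α := hρ 0
  have hρ1 : ρ (sfS 1) = β := hρ 1
  have hρ2 : ρ (sfS 2) = (α * β)⁻¹ := hρ 2
  have hs2 : (sfS 2 : SF 0 3) = (sfS 0 * sfS 1)⁻¹ := by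
    unfold sfVal at hrel
    simp [List.ofFn_succ] at hrel
    rw [← mul_assoc] at hrel
    exact eq_inv_of_mul_eq_one_right hrel
  have htop : Subgroup.zpowers (sfS 0 : SF 0 3) ⊔ Subgroup.zpowers (sfS 1 : SF 0 3) = ⊤ := by
    rw [eq_top_iff, ← hgen, Subgroup.closure_le]
    rintro z (⟨i, rfl⟩ | ⟨j, rfl⟩)
    · exact i.1.elim0
    · have h0 : (sfS 0 : SF 0 3) ∈ Subgroup.zpowers (sfS 0 : SF 0 3) ⊔
          Subgroup.zpowers (sfS 1 : SF 0 3) := Subgroup.mem_sup_left (Subgroup.mem_zpowers _)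
      have h1 : (sfS 1 : SF 0 3) ∈ Subgroup.zpowers (sfS 0 : SF 0 3) ⊔
          Subgroup.zpowers (sfS 1 : SF 0 3) := Subgroup.mem_sup_right (Subgroup.mem_zpowers _)
      fin_cases j
      · exact h0
      · exact h1
      · show (sfS 2 : SF 0 3) ∈ _
        rw [hs2]
        exact inv_mem (mul_mem h0 h1)
  obtain ⟨ha, hb, hc, pa, pb, pc, cy⟩ := hP
  set a : SL2 := p α with haa
  set b : SL2 := p β with hbb
  set q : V2 := b • v with hq
  set r : V2 := a • q with hr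
  obtain ⟨hU, d1, d2, d3, j1, j2, m1, m2, m3⟩ := hcyc.2.2 v r q cy
  have hqD : q ∈ DD a := pa
  have hvD : v ∈ DD b := pb
  have hvC : v ∈ DD (a * b) := by
    show 0 < tr2 (a * b) * det2 v ((a * b) • v)
    rw [mul_smul]
    exact pc
  have hφ0 : (p.comp ρ) (sfS 0) = a := by rw [MonoidHom.comp_apply, hρ0]
  have hφ1 : (p.comp ρ) (sfS 1) = b := by rw [MonoidHom.comp_apply, hρ1]
  have hφ2 : (p.comp ρ) (sfS 2) = (a * b)⁻¹ := by
    rw [MonoidHom.comp_apply, hρ2, map_inv, map_mul]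
  have hU1 : HO q v ∪ HO v r ∪ HO r q = {x : V2 | x ≠ 0} := by
    rw [← hU]
    ext x
    simp only [Set.mem_union]
    tauto
  have hU2 : HO v r ∪ HO r q ∪ HO q v = {x : V2 | x ≠ 0} := hU
  have H : PantsPP (p.comp ρ) (sfS 0 : SF 0 3) (sfS 1) (HO r q) (HO q v) (HO v r)
      (HO r q ∩ DD a) (HO q v ∩ DD b) (arcSL.I a) (arcSL.I b) := by
    refine ⟨fun g => ?_, fun n hn w hw => ?_, fun n hn w hw => ?_, Set.inter_subset_left,
      Set.inter_subset_left, pants_Isub hFD ha rfl hqD hU1 j1, pants_Isub hFD hb rfl hvD hU2 j2,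
      fun n w hw => ?_, fun n w hw => ?_, fun w h1 h2 => pants_IDD a w h2 h1.2,
      fun w h1 h2 => pants_IDD b w h2 h1.2, fun w h1 h2 => Set.disjoint_left.mp d2 h1 h2,
      fun w h1 h2 => Set.disjoint_left.mp d1 h2 h1, fun w h1 h2 => Set.disjoint_left.mp d3 h1 h2⟩
    · rcases hAW (SF 0 3) (Subgroup.zpowers (sfS 0 : SF 0 3)) (Subgroup.zpowers (sfS 1)) ⊥ htop
        bot_le bot_le g with h | h
      · exact Or.inl (Subgroup.mem_bot.mp h)
      · exact Or.inr h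
    · rw [map_zpow, hφ0]
      exact pants_one hFD ha rfl hqD hU1 j1 n hn w hw.symm
    · rw [map_zpow, hφ1]
      exact pants_one hFD hb rfl hvD hU2 j2 n hn w hw
    · rw [map_zpow, hφ0]
      exact pants_Ifix hcyc a n w hw
    · rw [map_zpow, hφ1]
      exact pants_Ifix hcyc b n w hw
  have hIc : ∀ w, w ∈ arcSL.I ((p.comp ρ) (sfS 2)) →
      w ∈ pantsC (p.comp ρ) (sfS 0 * sfS 1 : SF 0 3) (HO v r) := by
    intro w hw
    rw [hφ2] at hw
    obtain ⟨m, u, hu, rfl⟩ := pants_Ic hcyc hFD hc (r := r) (by rw [mul_smul]) hvC w hw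
    refine ⟨m, u, hu, ?_⟩
    rw [map_zpow, map_mul, hφ0, hφ1]
  have hzp : Subgroup.zpowers (sfS 2 : SF 0 3) = Subgroup.zpowers (sfS 0 * sfS 1) := by
    rw [hs2, Subgroup.zpowers_inv]
  refine ⟨ρ, ⟨fun i => ?_, fun g hg => ?_, fun g i j hij => ?_, fun i => ?_⟩, fun j => ?_⟩
  · fin_cases i
    · show 2 < |tr2 ((p.comp ρ) (sfS 0))|
      rw [hφ0]
      exact ha
    · show 2 < |tr2 ((p.comp ρ) (sfS 1))|
      rw [hφ1]
      exact hb
    · show 2 < |tr2 ((p.comp ρ) (sfS 2))|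
      rw [hφ2, pants_trinv]
      exact hc
  · rcases pants_F3 H (g := g) m1 with h | h
    · exact h
    · exfalso
      apply h.1
      have h1 : (p.comp ρ) g • v = v ∨ (p.comp ρ) g • v = -v := by
        rcases hg with hg | hg
        · left
          show ((p.comp ρ) g).1.mulVec v = v
          rw [hg, Matrix.one_mulVec]
        · right
          show ((p.comp ρ) g).1.mulVec v = -v
          rw [hg, Matrix.neg_mulVec, Matrix.one_mulVec]
      rcases h1 with h1 | h1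
      · rw [h1]
        exact m1
      · rw [h1]
        exact pants_HO_neg m1
  · obtain ⟨w', hw1, hw2⟩ := hij
    obtain ⟨w, hw, rfl⟩ := hw1
    change w ∈ arcSL.I ((p.comp ρ) (sfS i)) at hw
    change (p.comp ρ) g • w ∈ arcSL.I ((p.comp ρ) (sfS j)) at hw2
    obtain ⟨e1, e2, e3, e4, e5, e6, e7, e8, e9⟩ := pants_dis H g w
    fin_cases i <;> fin_cases j
    · change w ∈ arcSL.I ((p.comp ρ) (sfS 0)) at hw
      change (p.comp ρ) g • w ∈ arcSL.I ((p.comp ρ) (sfS 0)) at hw2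
      rw [hφ0] at hw hw2
      exact ⟨rfl, e1 hw hw2⟩
    · change w ∈ arcSL.I ((p.comp ρ) (sfS 0)) at hw
      change (p.comp ρ) g • w ∈ arcSL.I ((p.comp ρ) (sfS 1)) at hw2
      rw [hφ0] at hw
      rw [hφ1] at hw2
      exact absurd hw2 (e4 hw)
    · change w ∈ arcSL.I ((p.comp ρ) (sfS 0)) at hw
      change (p.comp ρ) g • w ∈ arcSL.I ((p.comp ρ) (sfS 2)) at hw2
      rw [hφ0] at hw
      exact absurd (hIc _ hw2) (e6 hw)
    · change w ∈ arcSL.I ((p.comp ρ) (sfS 1)) at hw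
      change (p.comp ρ) g • w ∈ arcSL.I ((p.comp ρ) (sfS 0)) at hw2
      rw [hφ1] at hw
      rw [hφ0] at hw2
      exact absurd hw2 (e5 hw)
    · change w ∈ arcSL.I ((p.comp ρ) (sfS 1)) at hw
      change (p.comp ρ) g • w ∈ arcSL.I ((p.comp ρ) (sfS 1)) at hw2
      rw [hφ1] at hw hw2
      exact ⟨rfl, e2 hw hw2⟩
    · change w ∈ arcSL.I ((p.comp ρ) (sfS 1)) at hw
      change (p.comp ρ) g • w ∈ arcSL.I ((p.comp ρ) (sfS 2)) at hw2
      rw [hφ1] at hw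
      exact absurd (hIc _ hw2) (e7 hw)
    · change w ∈ arcSL.I ((p.comp ρ) (sfS 2)) at hw
      change (p.comp ρ) g • w ∈ arcSL.I ((p.comp ρ) (sfS 0)) at hw2
      rw [hφ0] at hw2
      exact absurd hw2 (e8 (hIc _ hw))
    · change w ∈ arcSL.I ((p.comp ρ) (sfS 2)) at hw
      change (p.comp ρ) g • w ∈ arcSL.I ((p.comp ρ) (sfS 1)) at hw2
      rw [hφ1] at hw2
      exact absurd hw2 (e9 (hIc _ hw))
    · change w ∈ arcSL.I ((p.comp ρ) (sfS 2)) at hw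
      change (p.comp ρ) g • w ∈ arcSL.I ((p.comp ρ) (sfS 2)) at hw2
      refine ⟨rfl, ?_⟩
      show g ∈ Subgroup.zpowers (sfS 2 : SF 0 3)
      rw [hzp]
      exact e3 (hIc _ hw) (hIc _ hw2)
  · have hcos := fun k hk => pants_cos H ⟨v, m1⟩ k hk
    have h1 := hcos 1 one_ne_zero
    have h2 := hcos 2 two_ne_zero
    rw [zpow_one, zpow_one] at h1
    have hsub : ∀ z : SF 0 3, z⁻¹ * z ^ (2 : ℤ) = z := by
      intro z
      group
    fin_cases i
    · refine ⟨sfS 1, sfS 1 ^ (2 : ℤ), h1.1, h2.1, ?_⟩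
      rw [hsub]
      exact h1.1
    · refine ⟨sfS 0, sfS 0 ^ (2 : ℤ), h1.2.1, h2.2.1, ?_⟩
      rw [hsub]
      exact h1.2.1
    · show ∃ x y, x ∉ Subgroup.zpowers (sfS 2 : SF 0 3) ∧ y ∉ Subgroup.zpowers (sfS 2 : SF 0 3) ∧
        x⁻¹ * y ∉ Subgroup.zpowers (sfS 2 : SF 0 3)
      rw [hzp]
      refine ⟨sfS 0, sfS 0 ^ (2 : ℤ), h1.2.2, h2.2.2, ?_⟩
      rw [hsub]
      exact h1.2.2
  · rw [hρ j]

end Pool.Agent.MPEF
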