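import Pool.Agent.Lib.MP_ef3f0f_gt.A.Defs

set_option autoImplicit false

/-!
# MP_ef3f0f_gt, Part IV (arcs and pants in the plane): the statements

Modules `A/X.lean`: `theorem tX : S_Y → ... → S_X`, namespace `Pool.Agent.MPEF`.
-/

namespace Pool.Agent.MPEF

open scoped Pointwise

/-- Diagonalization. Proof. Let `g = (a b; c d)`, `t = tr g`, `|t| > 2`; `l = (t ± √(t²-4))/2` with the sign of
`t`, so `|l| > 1`, and `l⁻¹` is the other root. If `c ≠ 0` the vectors `(l - d, c)`, `(l⁻¹ - d, c)` are eigenvectors with determinant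
`c (l - l⁻¹) ≠ 0`; rescale one of them so that the determinant is `1` and take them as the columns
of `h`. If `c = 0`, `b ≠ 0`: `(b, l - a)`, `(b, l⁻¹ - a)`. If `b = c = 0`: `g` is diagonal, `h = 1` or
`h = (0 -1; 1 0)`. (Any other way is fine.) -/
def S_diag : Prop :=
  ∀ g : SL2, 2 < |tr2 g| → ∃ (l : ℝ) (hl : l ≠ 0) (h : SL2), 1 < |l| ∧ g = h * dgl l hl * h⁻¹

/-- The axioms for `arcSL`. Proof. `det2 (g • x) (g • y) = det2 x y`, `g.1 = ±1` acts as `±1`.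
With `q v = det2 v (l • v)`, a quadratic form with matrix entries `c, d - a, -b` and discriminant
`(d-a)² + 4bc = t² - 4 > 0`: indefinite and nondegenerate, so `{t q < 0}` is nonempty and its
closure is `{t q ≤ 0}` (if `t q v = 0` then `v + s w` for suitable `w` and small `s` of the right sign is in the
set; by `S_diag` it is enough to look at `-x y`), `det2 v (l⁻¹ • v) = det2 (l • v) v = - q v`,
`tr l⁻¹ = tr l`. -/
def S_arcOk : Prop := arcSL.Ok ∧ (1 : SL2) ∈ arcSL.N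

/-- Basic facts on the cyclic order. Proof. `det2` is bilinear and antisymmetric, invariant
under `SL₂`; for the partition choose coordinates: as `det2 p q ≠ 0` write `x = α p + β q`;
then `det2 p x = β det2 p q`, `det2 x q = α det2 p q`, etc. -/
def S_cyc : Prop :=
  (∀ (g : SL2) (x y : V2), det2 (g • x) (g • y) = det2 x y) ∧
  (∀ (g : SL2) (v w : V2), g • HO v w = HO (g • v) (g • w)) ∧
  (∀ p r q : V2, cyc p r q →
    (HO p r ∪ HO r q ∪ HO q p = {x | x ≠ 0}) ∧ Disjoint (HO p r) (HO r q) ∧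
    Disjoint (HO r q) (HO q p) ∧ Disjoint (HO q p) (HO p r) ∧
    HO q r = HO q p ∪ HO p r ∧ HO p q = HO p r ∪ HO r q ∧ p ∈ HO p r ∧ r ∈ HO r q ∧ q ∈ HO q p)

/-- The half-open arc from `q` to `a q` is a fundamental domain for `a` on `DD a`.
Proof. By `S_diag` and invariance (`DD (h a h⁻¹) = h • DD a`, `HO` by `S_cyc`; formulas for `dgl`) let `a = dgl l`, `|l| > 1`;
`DD a = {x y < 0}`, on which `τ = - x / y > 0` is a coordinate with `τ (a v) = l² τ v`, and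
`HO q (a q) = {x y < 0, τ q ≤ τ < l² τ q}`: with `q = y (-τ, 1)` and `v = (v₀, v₁)` the condition `cyc q v (a q)`
is `-(v₀ + τ v₁) (v₀ + l² τ v₁) > 0`. -/
def S_FD : Prop :=
  ∀ (a : SL2) (q : V2), 2 < |tr2 a| → q ∈ DD a →
    HO q (a • q) ⊆ DD a ∧
    (∀ n : ℤ, n ≠ 0 → Disjoint (a ^ n • HO q (a • q)) (HO q (a • q))) ∧
    (∀ n : ℤ, a ^ n • DD a = DD a) ∧
    (∀ x ∈ DD a, ∃ n : ℤ, x ∈ a ^ n • HO q (a • q))

/-- **Pants lemma** (IV.1). Proof. Let `a = p α`, `b = p β`, `q = b v`, `r = a b v`, so `cyc v r q`. `Δ = HO v r`,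
`X_a = HO r q`, `X_b = HO q v`: a partition of the nonzero vectors. `J_a = HO q (a q) = HO q r = X_b ∪ Δ`,
`J_b = HO v (b v) = HO v q = Δ ∪ X_a`. By `S_FD` for `(a, q)`: for `n ≠ 0`: `a^n • J_a` is disjoint from `J_a` and in `DD a`, so
`a^n • (X_b ∪ Δ) ⊆ X_a ∩ DD a`. Similarly by `S_FD` for `(b, v)`: `b^n • (Δ ∪ X_a) ⊆ X_b ∩ DD b`, `n ≠ 0`.
`I a` is disjoint from `DD a ⊇ J_a`, so `I a ⊆ X_a`; `I b ⊆ X_b`. `I a` is invariant under `a`.
Representation `ρ : SF 0 3 → Γ`: `s₀ ↦ α`, `s₁ ↦ β`, `s₂ ↦ (α β)⁻¹` (`S_sf`). By `S_AW` with `K₁ = zpowers s₀`,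
`K₂ = zpowers s₁`, `Z = ⊥` (they generate, `s₂ = (s₀ s₁)⁻¹`) every `g ≠ 1` is an alternating word; its letters are `s₀^n`, `s₁^n`,
`n ≠ 0`. (No relation between them is needed: if `x = s₀^n ≠ 1` then `n ≠ 0`.) By induction `p (ρ g)` maps `Δ`, and `X_b` if the last letter is in `K₁`, `X_a` if it is
in `K₂`, into `X_a ∩ DD a` (first letter in `K₁`) resp. `X_b ∩ DD b`.
`inj`: `±1` preserves `Δ`, which is nonempty and disjoint from `X_a`, `X_b`.
`I ((a b)⁻¹) = DD (a b) = ⋃ₙ (a b)^n • Δ` by `S_FD` for `(a b, v)` (`HO v (a b v) = Δ`).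
`dis`: (a,·): if `g` is not in `zpowers s₀` write `g = w x` with `x ∈ zpowers s₀` and `w` a word ending in `K₂`; `x` preserves `I a ⊆ X_a`, so
`g I a ⊆ X_a ∩ DD a` or `⊆ X_b ∩ DD b`: disjoint from `I a` and from `I b`. If `g` is in `zpowers s₀`: `g I a = I a` is
disjoint from `I b`. The same for `b`. (c,·): `g (a b)^n Δ` is `Δ` or in `X_a ∩ DD a` or in `X_b ∩ DD b`, so
disjoint from `I a` and `I b`; (c,c): if `g (a b)^n Δ` meets `(a b)^m Δ` then `(a b)^(-m) g (a b)^n = 1`. (·,c): apply `g⁻¹`.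
`cos`: for `s₀` take `x = s₁`, `y = s₁²`; for `s₁` take `s₀`, `s₀²`; for `s₂` take `s₀`, `s₀²`: e.g. `s₁ ∉ zpowers s₀` as
`s₁ I a ⊆ X_b` is disjoint from `I a`; `s₀ ∉ zpowers (s₀ s₁)`: otherwise `a` would preserve
`DD (a b) ⊇ Δ`, more precisely `s₀ = (s₀ s₁)^m` and `s₁ = s₀⁻¹ (s₀ s₁)` would commute, but `s₀ s₁ Δ ⊆ X_a`,
`s₁ s₀ Δ ⊆ X_b`; similarly `s₀² ∉ zpowers (s₀ s₁)` (`s₀²` would commute with `s₀ s₁`, so with `s₁`: `s₀² s₁ Δ ⊆ X_a`, `s₁ s₀² Δ ⊆ X_b`). -/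
def S_Pants : Prop :=
  ∀ (Γ : Type) [Group Γ] (p : Γ →* SL2) (α β : Γ) (v : V2), PH (p α) (p β) v →
    St arcSL p 0 3 ![α, β, (α * β)⁻¹]

end Pool.Agent.MPEF
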