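import Pool.Agent.Lib.MP_ef3f0f_gt.A.Spec

set_option autoImplicit false

namespace Pool.Agent.MPEF

open scoped Pointwise

private theorem arcOk_det (g : SL2) : g.1 0 0 * g.1 1 1 - g.1 0 1 * g.1 1 0 = 1 := by
  have := g.2
  rwa [Matrix.det_fin_two] at this

private theorem arcOk_smul (g : SL2) (x : V2) (i : Fin 2) :
    (g • x) i = g.1 i 0 * x 0 + g.1 i 1 * x 1 := by
  have h : g • x = g.1.mulVec x := rfl
  rw [h, Matrix.mulVec, dotProduct, Fin.sum_univ_two]

private theorem arcOk_inv2 (g : SL2) (x y : V2) : det2 (g • x) (g • y) = det2 x y := by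
  unfold det2
  simp only [arcOk_smul]
  have h := arcOk_det g
  linear_combination (x 0 * y 1 - x 1 * y 0) * h

private theorem arcOk_tr_conj (t l : SL2) : tr2 (t * l * t⁻¹) = tr2 l := by
  have h : ∀ g : SL2, tr2 g = Matrix.trace g.1 := fun g => (Matrix.trace_fin_two g.1).symm
  have h2 : t⁻¹ * (t * l) = l := by group
  rw [h, h, Matrix.SpecialLinearGroup.coe_mul, Matrix.trace_mul_comm,
    ← Matrix.SpecialLinearGroup.coe_mul]
  exact congrArg (fun g : SL2 => Matrix.trace g.1) h2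

private theorem arcOk_tr_inv (l : SL2) : tr2 l⁻¹ = tr2 l := by
  unfold tr2
  rw [Matrix.SpecialLinearGroup.SL2_inv_expl]
  simp [add_comm]

/-- the form `t q` -/
private def arcOk_Q (l : SL2) (v : V2) : ℝ := tr2 l * det2 v (l • v)

private theorem arcOk_Q_add (l : SL2) (v w : V2) : ∃ B : ℝ, ∀ s : ℝ,
    arcOk_Q l (v + s • w) = arcOk_Q l v + s * B + s ^ 2 * arcOk_Q l w := by
  refine ⟨tr2 l * (det2 v (l • w) + det2 w (l • v)), fun s => ?_⟩
  unfold arcOk_Q det2
  simp only [arcOk_smul, Pi.add_apply, Pi.smul_apply, smul_eq_mul]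
  ring

private theorem arcOk_Q_cont (l : SL2) : Continuous (arcOk_Q l) := by
  unfold arcOk_Q det2
  simp only [arcOk_smul]
  fun_prop

private theorem arcOk_Q_neg (l : SL2) (hl : 2 < |tr2 l|) : ∃ v : V2, arcOk_Q l v < 0 := by
  have hdet := arcOk_det l
  have hform : ∀ x y : ℝ, arcOk_Q l ![x, y] = (tr2 l * l.1 1 0) * x ^ 2 +
      (tr2 l * (l.1 1 1 - l.1 0 0)) * (x * y) + (-(tr2 l * l.1 0 1)) * y ^ 2 := by
    intro x y
    unfold arcOk_Q det2
    simp only [arcOk_smul, Matrix.cons_val_zero, Matrix.cons_val_one, Matrix.cons_val_fin_one]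
    ring
  have hD : 0 < tr2 l ^ 2 - 4 := by
    have h1 : (2 : ℝ) ^ 2 < |tr2 l| ^ 2 := pow_lt_pow_left₀ hl (by norm_num) (by norm_num)
    rw [sq_abs] at h1
    linarith
  have hT : 0 < tr2 l ^ 2 := by linarith
  have hdisc : 0 < (tr2 l * (l.1 1 1 - l.1 0 0)) ^ 2 -
      4 * (tr2 l * l.1 1 0) * (-(tr2 l * l.1 0 1)) := by
    have h1 : (tr2 l * (l.1 1 1 - l.1 0 0)) ^ 2 - 4 * (tr2 l * l.1 1 0) * (-(tr2 l * l.1 0 1)) =
        tr2 l ^ 2 * (tr2 l ^ 2 - 4) := by
      have h2 : (l.1 1 1 - l.1 0 0) ^ 2 + 4 * l.1 1 0 * l.1 0 1 = tr2 l ^ 2 - 4 := by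
        unfold tr2
        linear_combination (-4) * hdet
      linear_combination tr2 l ^ 2 * h2
    rw [h1]
    exact mul_pos hT hD
  generalize tr2 l * l.1 1 0 = C at hform hdisc
  generalize tr2 l * (l.1 1 1 - l.1 0 0) = E at hform hdisc
  generalize -(tr2 l * l.1 0 1) = B at hform hdisc
  rcases lt_trichotomy C 0 with hC | hC | hC
  · exact ⟨![1, 0], by rw [hform]; linarith⟩
  · have hE : E ≠ 0 := by
      rintro rfl
      rw [hC] at hdisc
      simp at hdisc
    refine ⟨![-(B + 1) / E, 1], ?_⟩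
    rw [hform, hC]
    have h1 : E * (-(B + 1) / E * 1) = -(B + 1) := by field_simp
    rw [h1]
    linarith
  · refine ⟨![-E, 2 * C], ?_⟩
    rw [hform]
    have h1 : C * (-E) ^ 2 + E * (-E * (2 * C)) + B * (2 * C) ^ 2 = -(C * (E ^ 2 - 4 * C * B)) := by
      ring
    rw [h1]
    have := mul_pos hC hdisc
    linarith

private theorem arcOk_closure (l : SL2) (hl : 2 < |tr2 l|) :
    closure {v | arcOk_Q l v < 0} = {v | arcOk_Q l v ≤ 0} := by
  apply Set.Subset.antisymm
  · apply closure_minimal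
    · intro v hv
      have hv' : arcOk_Q l v < 0 := hv
      exact hv'.le
    · exact isClosed_le (arcOk_Q_cont l) continuous_const
  · intro v hv
    have hv' : arcOk_Q l v ≤ 0 := hv
    obtain ⟨w, hw⟩ := arcOk_Q_neg l hl
    obtain ⟨B, hB⟩ := arcOk_Q_add l v w
    obtain ⟨σ, hσ1, hσ2⟩ : ∃ σ : ℝ, σ * B ≤ 0 ∧ σ ^ 2 = 1 := by
      rcases le_or_gt B 0 with h | h
      · exact ⟨1, by linarith, by norm_num⟩
      · exact ⟨-1, by linarith, by norm_num⟩
    have hcont : Continuous fun s : ℝ => v + (s * σ) • w := by fun_prop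
    have h0 : (0 : ℝ) ∈ closure (Set.Ioi (0 : ℝ)) := by
      rw [closure_Ioi]
      exact Set.self_mem_Ici
    have hmap : Set.MapsTo (fun s : ℝ => v + (s * σ) • w) (Set.Ioi 0) {v | arcOk_Q l v < 0} := by
      intro s hs
      have hs' : 0 < s := hs
      change arcOk_Q l (v + (s * σ) • w) < 0
      rw [hB]
      have h1 : s * σ * B ≤ 0 := by
        rw [mul_assoc]
        exact mul_nonpos_of_nonneg_of_nonpos hs'.le hσ1
      have h2 : (s * σ) ^ 2 * arcOk_Q l w < 0 := by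
        rw [mul_pow, hσ2, mul_one]
        exact mul_neg_of_pos_of_neg (by positivity) hw
      linarith
    have h3 := map_mem_closure hcont h0 hmap
    simpa using h3

private theorem arcOk_I (l : SL2) : arcSL.I l = {v | arcOk_Q l v < 0} := rfl

private theorem arcOk_Iconj (t l : SL2) : arcSL.I (t * l * t⁻¹) = t • arcSL.I l := by
  ext v
  rw [Set.mem_smul_set_iff_inv_smul_mem]
  change tr2 (t * l * t⁻¹) * det2 v ((t * l * t⁻¹) • v) < 0 ↔
    tr2 l * det2 (t⁻¹ • v) (l • t⁻¹ • v) < 0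
  have h1 : det2 v ((t * l * t⁻¹) • v) = det2 (t⁻¹ • v) (l • t⁻¹ • v) := by
    rw [← arcOk_inv2 t (t⁻¹ • v), smul_inv_smul, mul_smul, mul_smul]
  rw [h1, arcOk_tr_conj]

theorem tarcOk : S_arcOk := by
  refine ⟨⟨?_, ?_, ?_, ?_, ?_, ?_, ?_, ?_, ?_⟩, Or.inl rfl⟩
  · intro g
    refine continuous_pi fun i => ?_
    simp only [arcOk_smul]
    fun_prop
  · intro t l hl
    change 2 < |tr2 (t * l * t⁻¹)|
    rw [arcOk_tr_conj]
    exact hl
  · intro l hl
    change 2 < |tr2 l⁻¹|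
    rw [arcOk_tr_inv]
    exact hl
  · intro t l _
    exact arcOk_Iconj t l
  · intro l _
    rw [arcOk_I]
    exact isOpen_lt (arcOk_Q_cont l) continuous_const
  · intro l hl
    exact arcOk_Q_neg l hl
  · intro l hl
    rw [arcOk_I l, arcOk_closure l hl]
    ext v
    rw [Set.mem_compl_iff]
    change tr2 l⁻¹ * det2 v (l⁻¹ • v) < 0 ↔ ¬ (tr2 l * det2 v (l • v) ≤ 0)
    have h1 : det2 v (l⁻¹ • v) = - det2 v (l • v) := by
      rw [← arcOk_inv2 l v, smul_inv_smul]
      unfold det2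
      ring
    rw [h1, arcOk_tr_inv, mul_neg, Left.neg_neg_iff, not_le]
  · intro n hn l hl
    have h1 : n * l * n⁻¹ = l := by
      rw [mul_inv_eq_iff_eq_mul]
      apply Subtype.ext
      rw [Matrix.SpecialLinearGroup.coe_mul, Matrix.SpecialLinearGroup.coe_mul]
      rcases hn with hn | hn
      · rw [hn, one_mul, mul_one]
      · rw [hn, neg_one_mul, mul_neg_one]
    rw [← arcOk_Iconj, h1]
  · intro t n hn
    have h2 : t.1 * (t⁻¹).1 = 1 := by
      rw [← Matrix.SpecialLinearGroup.coe_mul, mul_inv_cancel]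
      rfl
    rcases hn with hn | hn
    · left
      rw [Matrix.SpecialLinearGroup.coe_mul, Matrix.SpecialLinearGroup.coe_mul, hn, mul_one, h2]
    · right
      rw [Matrix.SpecialLinearGroup.coe_mul, Matrix.SpecialLinearGroup.coe_mul, hn, mul_neg_one,
        neg_mul, h2]

end Pool.Agent.MPEF
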