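import Pool.Agent.Lib.MP_ef3f0f_gt.A.Spec

set_option autoImplicit false

namespace Pool.Agent.MPEF

open scoped Pointwise

private theorem cyc_det (g : SL2) : g.1 0 0 * g.1 1 1 - g.1 0 1 * g.1 1 0 = 1 := by
  have := g.2
  rwa [Matrix.det_fin_two] at this

private theorem cyc_smul (g : SL2) (x : V2) (i : Fin 2) :
    (g • x) i = g.1 i 0 * x 0 + g.1 i 1 * x 1 := by
  have h : g • x = g.1.mulVec x := rfl
  rw [h, Matrix.mulVec, dotProduct, Fin.sum_univ_two]

private theorem cyc_inv (g : SL2) (x y : V2) : det2 (g • x) (g • y) = det2 x y := by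
  unfold det2
  simp only [cyc_smul]
  have h := cyc_det g
  linear_combination (x 0 * y 1 - x 1 * y 0) * h

private theorem cyc_sgn (u v k m : ℝ) (hk : 0 < k) (hm : 0 < m) (h : u * k = v * m) :
    0 < u ↔ 0 < v := by
  rw [← mul_pos_iff_of_pos_right hk, h, mul_pos_iff_of_pos_right hm]

private theorem cyc_real (u v : ℝ) (h : ¬ (u = 0 ∧ v = 0)) :
    ((u = 0 ∨ 0 < -(u * (u + v))) ∨ (u + v = 0 ∨ 0 < -((u + v) * v)) ∨ (v = 0 ∨ 0 < u * v)) ∧
    ¬ ((u = 0 ∨ 0 < -(u * (u + v))) ∧ (u + v = 0 ∨ 0 < -((u + v) * v))) ∧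
    ¬ ((u + v = 0 ∨ 0 < -((u + v) * v)) ∧ (v = 0 ∨ 0 < u * v)) ∧
    ¬ ((v = 0 ∨ 0 < u * v) ∧ (u = 0 ∨ 0 < -(u * (u + v)))) ∧
    ((v = 0 ∨ 0 < (u + v) * v) ↔ (v = 0 ∨ 0 < u * v) ∨ (u = 0 ∨ 0 < -(u * (u + v)))) ∧
    ((u = 0 ∨ 0 < -(u * v)) ↔ (u = 0 ∨ 0 < -(u * (u + v))) ∨ (u + v = 0 ∨ 0 < -((u + v) * v))) := by
  simp only [Left.neg_pos_iff, mul_pos_iff, mul_neg_iff]
  rcases lt_trichotomy u 0 with hu | hu | hu <;> rcases lt_trichotomy v 0 with hv | hv | hv <;>
    rcases lt_trichotomy (u + v) 0 with hw | hw | hw <;> grind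

theorem tcyc : S_cyc := by
  refine ⟨cyc_inv, ?_, ?_⟩
  · intro g v w
    ext x
    rw [Set.mem_smul_set_iff_inv_smul_mem]
    have h1 : ∀ y : V2, det2 y (g⁻¹ • x) = det2 (g • y) x := by
      intro y
      rw [← cyc_inv g y, smul_inv_smul]
    have h2 : ∀ y : V2, det2 (g⁻¹ • x) y = det2 x (g • y) := by
      intro y
      rw [← cyc_inv g _ y, smul_inv_smul]
    have h3 : g⁻¹ • x = 0 ↔ x = 0 := by
      constructor
      · intro h
        rw [← smul_inv_smul g x, h, smul_zero]
      · intro h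
        rw [h, smul_zero]
    unfold HO cyc
    simp only [Set.mem_ofPred_eq, ne_eq, h3, h1, h2, cyc_inv]
  · intro p r q hc
    unfold cyc at hc
    set a := det2 p r with ha
    set b := det2 r q with hb
    set c := det2 p q with hcd
    have hb0 : b ≠ 0 := by rintro h; rw [h] at hc; simp at hc
    have hc0 : c ≠ 0 := by rintro h; rw [h] at hc; simp at hc
    have ha0 : a ≠ 0 := by rintro h; rw [h] at hc; simp at hc
    have hbc : 0 < b ^ 2 * c ^ 4 := by positivity
    have hac : 0 < a ^ 2 * c ^ 4 := by positivity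
    have habc : 0 < a ^ 2 * b ^ 2 * c ^ 2 := by positivity
    -- the coordinates
    have hrel : ∀ x : V2, c ^ 2 * det2 r x = b * c * det2 p x + a * c * det2 q x := by
      intro x
      rw [ha, hb, hcd]
      unfold det2
      ring
    have hnz : ∀ x : V2, x ≠ 0 → ¬ (b * c * det2 p x = 0 ∧ a * c * det2 q x = 0) := by
      rintro x hx ⟨h1, h2⟩
      have h1' : det2 p x = 0 := (mul_eq_zero.mp h1).resolve_left (mul_ne_zero hb0 hc0)
      have h2' : det2 q x = 0 := (mul_eq_zero.mp h2).resolve_left (mul_ne_zero ha0 hc0)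
      apply hx
      have e0 : c * x 0 = 0 := by
        have : c * x 0 = q 0 * det2 p x - p 0 * det2 q x := by
          rw [hcd]; unfold det2; ring
        rw [this, h1', h2']; ring
      have e1 : c * x 1 = 0 := by
        have : c * x 1 = q 1 * det2 p x - p 1 * det2 q x := by
          rw [hcd]; unfold det2; ring
        rw [this, h1', h2']; ring
      funext i
      fin_cases i
      · exact (mul_eq_zero.mp e0).resolve_left hc0
      · exact (mul_eq_zero.mp e1).resolve_left hc0
    have zp : ∀ x : V2, det2 p x = 0 ↔ b * c * det2 p x = 0 := by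
      intro x
      rw [mul_eq_zero]
      exact ⟨Or.inr, fun h => h.resolve_left (mul_ne_zero hb0 hc0)⟩
    have zq : ∀ x : V2, det2 q x = 0 ↔ a * c * det2 q x = 0 := by
      intro x
      rw [mul_eq_zero]
      exact ⟨Or.inr, fun h => h.resolve_left (mul_ne_zero ha0 hc0)⟩
    have zr : ∀ x : V2, det2 r x = 0 ↔ b * c * det2 p x + a * c * det2 q x = 0 := by
      intro x
      rw [← hrel, mul_eq_zero]
      exact ⟨Or.inr, fun h => h.resolve_left (pow_ne_zero 2 hc0)⟩
    have anti : ∀ x y : V2, det2 x y = - det2 y x := by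
      intro x y; unfold det2; ring
    have mpr : ∀ x : V2, x ∈ HO p r ↔ x ≠ 0 ∧ (b * c * det2 p x = 0 ∨
        0 < -((b * c * det2 p x) * (b * c * det2 p x + a * c * det2 q x))) := by
      intro x
      unfold HO cyc
      rw [Set.mem_ofPred_eq, zp]
      have h1 : 0 < det2 p x * det2 x r * det2 p r ↔
          0 < -((b * c * det2 p x) * (b * c * det2 p x + a * c * det2 q x)) := by
        apply cyc_sgn _ _ _ _ hbc hc
        rw [← hrel, anti x r, ← ha]
        ring
      rw [h1]
    have mrq : ∀ x : V2, x ∈ HO r q ↔ x ≠ 0 ∧ (b * c * det2 p x + a * c * det2 q x = 0 ∨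
        0 < -((b * c * det2 p x + a * c * det2 q x) * (a * c * det2 q x))) := by
      intro x
      unfold HO cyc
      rw [Set.mem_ofPred_eq, zr]
      have h1 : 0 < det2 r x * det2 x q * det2 r q ↔
          0 < -((b * c * det2 p x + a * c * det2 q x) * (a * c * det2 q x)) := by
        apply cyc_sgn _ _ _ _ hac hc
        rw [← hrel, anti x q, ← hb]
        ring
      rw [h1]
    have mqp : ∀ x : V2, x ∈ HO q p ↔ x ≠ 0 ∧ (a * c * det2 q x = 0 ∨
        0 < (b * c * det2 p x) * (a * c * det2 q x)) := by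
      intro x
      unfold HO cyc
      rw [Set.mem_ofPred_eq, zq]
      have h1 : 0 < det2 q x * det2 x p * det2 q p ↔
          0 < (b * c * det2 p x) * (a * c * det2 q x) := by
        apply cyc_sgn _ _ _ _ habc hc
        rw [anti x p, anti q p, ← hcd]
        ring
      rw [h1]
    have mqr : ∀ x : V2, x ∈ HO q r ↔ x ≠ 0 ∧ (a * c * det2 q x = 0 ∨
        0 < (b * c * det2 p x + a * c * det2 q x) * (a * c * det2 q x)) := by
      intro x
      unfold HO cyc
      rw [Set.mem_ofPred_eq, zq]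
      have h1 : 0 < det2 q x * det2 x r * det2 q r ↔
          0 < (b * c * det2 p x + a * c * det2 q x) * (a * c * det2 q x) := by
        apply cyc_sgn _ _ _ _ hac hc
        rw [← hrel, anti x r, anti q r, ← hb]
        ring
      rw [h1]
    have mpq : ∀ x : V2, x ∈ HO p q ↔ x ≠ 0 ∧ (b * c * det2 p x = 0 ∨
        0 < -((b * c * det2 p x) * (a * c * det2 q x))) := by
      intro x
      unfold HO cyc
      rw [Set.mem_ofPred_eq, zp]
      have h1 : 0 < det2 p x * det2 x q * det2 p q ↔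
          0 < -((b * c * det2 p x) * (a * c * det2 q x)) := by
        apply cyc_sgn _ _ _ _ habc hc
        rw [anti x q, ← hcd]
        ring
      rw [h1]
    have selfz : ∀ x : V2, det2 x x = 0 := by
      intro x; unfold det2; ring
    refine ⟨?_, ?_, ?_, ?_, ?_, ?_, ?_, ?_, ?_⟩
    · ext x
      rw [Set.mem_union, Set.mem_union, mpr, mrq, mqp, Set.mem_ofPred_eq]
      constructor
      · rintro ((h | h) | h)
        · exact h.1
        · exact h.1
        · exact h.1
      · intro hx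
        rcases (cyc_real _ _ (hnz x hx)).1 with h | h | h
        · exact Or.inl (Or.inl ⟨hx, h⟩)
        · exact Or.inl (Or.inr ⟨hx, h⟩)
        · exact Or.inr ⟨hx, h⟩
    · rw [Set.disjoint_left]
      intro x h1 h2
      rw [mpr] at h1
      rw [mrq] at h2
      exact (cyc_real _ _ (hnz x h1.1)).2.1 ⟨h1.2, h2.2⟩
    · rw [Set.disjoint_left]
      intro x h1 h2
      rw [mrq] at h1
      rw [mqp] at h2
      exact (cyc_real _ _ (hnz x h1.1)).2.2.1 ⟨h1.2, h2.2⟩
    · rw [Set.disjoint_left]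
      intro x h1 h2
      rw [mqp] at h1
      rw [mpr] at h2
      exact (cyc_real _ _ (hnz x h1.1)).2.2.2.1 ⟨h1.2, h2.2⟩
    · ext x
      rw [Set.mem_union, mqr, mqp, mpr, ← and_or_left]
      constructor
      · rintro ⟨hx, h⟩
        exact ⟨hx, (cyc_real _ _ (hnz x hx)).2.2.2.2.1.mp h⟩
      · rintro ⟨hx, h⟩
        exact ⟨hx, (cyc_real _ _ (hnz x hx)).2.2.2.2.1.mpr h⟩
    · ext x
      rw [Set.mem_union, mpq, mpr, mrq, ← and_or_left]
      constructor
      · rintro ⟨hx, h⟩
        exact ⟨hx, (cyc_real _ _ (hnz x hx)).2.2.2.2.2.mp h⟩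
      · rintro ⟨hx, h⟩
        exact ⟨hx, (cyc_real _ _ (hnz x hx)).2.2.2.2.2.mpr h⟩
    · refine ⟨?_, Or.inl (selfz p)⟩
      rintro h
      apply hc0
      rw [hcd, h]
      unfold det2
      simp
    · refine ⟨?_, Or.inl (selfz r)⟩
      rintro h
      apply hb0
      rw [hb, h]
      unfold det2
      simp
    · refine ⟨?_, Or.inl (selfz q)⟩
      rintro h
      apply hc0
      rw [hcd, h]
      unfold det2
      simp

end Pool.Agent.MPEF
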