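import Pool.Agent.Lib.MP_ef3f0f_gt.A.Spec

set_option autoImplicit false

namespace Pool.Agent.MPEF

open scoped Pointwise

private theorem diag_aux (g : SL2) (l : ℝ) (hl : l ≠ 0) (p q r s : ℝ) (hdet : p * s - q * r = 1)
    (h1 : g.1 0 0 * p + g.1 0 1 * r = p * l) (h2 : g.1 0 0 * q + g.1 0 1 * s = q * l⁻¹)
    (h3 : g.1 1 0 * p + g.1 1 1 * r = r * l) (h4 : g.1 1 0 * q + g.1 1 1 * s = s * l⁻¹) :
    ∃ h : SL2, g = h * dgl l hl * h⁻¹ := by
  refine ⟨⟨!![p, q; r, s], by rw [Matrix.det_fin_two_of]; exact hdet⟩, ?_⟩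
  rw [eq_mul_inv_iff_mul_eq]
  apply Subtype.ext
  rw [Matrix.SpecialLinearGroup.coe_mul, Matrix.SpecialLinearGroup.coe_mul]
  change g.1 * !![p, q; r, s] = !![p, q; r, s] * !![l, 0; 0, l⁻¹]
  ext i j
  fin_cases i <;> fin_cases j <;>
    simp only [Matrix.mul_apply, Fin.sum_univ_two, Matrix.of_apply, Matrix.cons_val', Matrix.cons_val_zero,
      Matrix.cons_val_one, Matrix.cons_val_fin_one, Fin.zero_eta, Fin.mk_one, Fin.isValue, mul_zero, add_zero,
      zero_add] <;>
    assumption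

theorem tdiag : S_diag := by
  intro g hg
  have hdet : g.1 0 0 * g.1 1 1 - g.1 0 1 * g.1 1 0 = 1 := by
    have := g.2
    rwa [Matrix.det_fin_two] at this
  unfold tr2 at hg
  set a := g.1 0 0 with ha
  set b := g.1 0 1 with hb
  set c := g.1 1 0 with hc
  set d := g.1 1 1 with hd
  -- the eigenvalue
  have hD : 0 < (a + d) ^ 2 - 4 := by
    have h1 : (2 : ℝ) ^ 2 < |a + d| ^ 2 := by
      apply pow_lt_pow_left₀ hg (by norm_num) (by norm_num)
    rw [sq_abs] at h1
    linarith
  obtain ⟨l, hl1, hl⟩ : ∃ l : ℝ, 1 < |l| ∧ l ^ 2 - (a + d) * l + 1 = 0 := by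
    have hs0 := Real.sqrt_nonneg ((a + d) ^ 2 - 4)
    have hs := Real.sq_sqrt hD.le
    set s := Real.sqrt ((a + d) ^ 2 - 4)
    rcases le_or_gt 0 (a + d) with h0 | h0
    · rw [abs_of_nonneg h0] at hg
      refine ⟨(a + d + s) / 2, ?_, by nlinarith⟩
      rw [abs_of_pos (by linarith)]
      linarith
    · rw [abs_of_neg h0] at hg
      refine ⟨(a + d - s) / 2, ?_, by nlinarith⟩
      rw [abs_of_neg (by linarith)]
      linarith
  have hl0 : l ≠ 0 := by
    rintro rfl
    rw [abs_zero] at hl1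
    linarith
  have hinv : l⁻¹ = a + d - l := by
    have h1 : l * (a + d - l) = 1 := by linarith
    exact (eq_inv_of_mul_eq_one_right h1).symm
  have hne : 2 * l - (a + d) ≠ 0 := by
    intro h
    have h2 : (2 * l - (a + d)) ^ 2 = (a + d) ^ 2 - 4 := by nlinarith
    rw [h] at h2
    linarith
  refine ⟨l, hl0, ?_⟩
  suffices h : ∃ p q r s : ℝ, p * s - q * r = 1 ∧ a * p + b * r = p * l ∧
      a * q + b * s = q * l⁻¹ ∧ c * p + d * r = r * l ∧ c * q + d * s = s * l⁻¹ by
    obtain ⟨p, q, r, s, h0, h1, h2, h3, h4⟩ := h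
    obtain ⟨h, hh⟩ := diag_aux g l hl0 p q r s h0 h1 h2 h3 h4
    exact ⟨h, hl1, hh⟩
  rw [hinv]
  by_cases hc0 : c = 0
  · by_cases hb0 : b = 0
    · have h1 : (l - a) * (l - d) = 0 := by
        rw [hc0, mul_zero, sub_zero] at hdet
        nlinarith
      rcases mul_eq_zero.mp h1 with h1 | h1
      · refine ⟨1, 0, 0, 1, by ring, ?_, ?_, ?_, ?_⟩
        · rw [hb0]; linarith
        · rw [hb0]; ring
        · rw [hc0]; ring
        · rw [hc0]; linarith
      · refine ⟨0, -1, 1, 0, by ring, ?_, ?_, ?_, ?_⟩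
        · rw [hb0]; ring
        · rw [hb0]; linarith
        · rw [hc0]; linarith
        · rw [hc0]; ring
    · rw [hc0, mul_zero, sub_zero] at hdet
      have hk : -(b * (2 * l - (a + d))) ≠ 0 := neg_ne_zero.mpr (mul_ne_zero hb0 hne)
      set k := -(b * (2 * l - (a + d))) with hkdef
      have hp : ∀ x y z : ℝ, x = y * z → x / k = y / k * z := by
        intro x y z h
        rw [h]; ring
      refine ⟨b / k, b, (l - a) / k, d - l, ?_, ?_, ?_, ?_, ?_⟩
      · have h1 : b / k * (d - l) - b * ((l - a) / k) = k / k := by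
          rw [hkdef]; ring
        rw [h1, div_self hk]
      · ring
      · ring
      · rw [hc0]
        have h1 : d * (l - a) = (l - a) * l := by nlinarith
        have h2 := hp _ _ _ h1
        rw [← h2]; ring
      · rw [hc0]
        nlinarith
  · have hk : c * (2 * l - (a + d)) ≠ 0 := mul_ne_zero hc0 hne
    set k := c * (2 * l - (a + d)) with hkdef
    have hp : ∀ x y z : ℝ, x = y * z → x / k = y / k * z := by
      intro x y z h
      rw [h]; ring
    refine ⟨(l - d) / k, a - l, c / k, c, ?_, ?_, ?_, ?_, ?_⟩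
    · have h1 : (l - d) / k * c - (a - l) * (c / k) = k / k := by
        rw [hkdef]; ring
      rw [h1, div_self hk]
    · have h1 : a * (l - d) + b * c = (l - d) * l := by nlinarith
      have h2 := hp _ _ _ h1
      rw [← h2]; ring
    · nlinarith
    · ring
    · ring

end Pool.Agent.MPEF
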